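import Pool.Agent.W558.WD.Stms
import Pool.Agent.W558.Princ2

/-!
# Part OVP of project WILD: principalization by a logarithmic modification
(helper349; adapted from `Pool.Agent.W558.Princ2`)
-/

set_option autoImplicit false
set_option linter.unusedVariables false
set_option linter.unusedSimpArgs false
set_option linter.unusedSectionVars false

universe u

open Polynomial Pool.Agent.W558

namespace Pool.Agent.W349.WD

lemma zpow_sum' {K : Type*} [Field K] {x : K} (hx : x ≠ 0) {ι : Type*} (s : Finset ι)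
    (f : ι → ℤ) : x ^ (∑ i ∈ s, f i) = ∏ i ∈ s, x ^ f i := by
  classical
  induction s using Finset.induction_on with
  | empty => simp
  | insert a s ha ih => rw [Finset.sum_insert ha, Finset.prod_insert ha, zpow_add₀ hx, ih]

section lift

variable {k K : Type u} [Field k] [Field K] [Algebra k K]

/-- lifting of logarithmic tangent vectors to the blowup -/
lemma lift_adj {A : Subalgebra k K} [Algebra.Smooth k A] {I : Type} [DecidableEq I]
    {x : I → K} (h : SNC A x) (hx : ∀ i, x i ∈ A) (hx0 : ∀ i, x i ≠ 0) {a b : I} (hab : a ≠ b)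
    (κ : Type u) [Field κ] [Algebra k κ] (φ : adj A (x a / x b) →ₐ[k] κ)
    (v : LT (φ.comp (Subalgebra.inclusion (le_adj A (x a / x b)))) x) :
    ∃ v' : LT φ (bx x a b),
      (∀ c (hc : c ∈ A), v'.D.D ⟨c, le_adj A (x a / x b) hc⟩ = v.D.D ⟨c, hc⟩) ∧
      v'.e none = v.e b ∧
      ∀ l, v'.e (some l) = if l = a then v.e a - v.e b else if l = b then 0 else v.e l := by
  have ht : Trans A (⟨x a, hx a⟩ : A) ⟨x b, hx b⟩ := h.trans hab _ _
  have hy0 : ((⟨x b, hx b⟩ : A) : K) ≠ 0 := hx0 b
  let φ0 : A →ₐ[k] κ := φ.comp (Subalgebra.inclusion (le_adj A (x a / x b)))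
  have hφ0 : ∀ c : A, φ ⟨c, le_adj A _ c.2⟩ = φ0 c := fun c => rfl
  have hv : x a / x b ∈ adj A (x a / x b) := self_mem_adj A _
  have hrel : φ0 ⟨x b, hx b⟩ * φ ⟨x a / x b, hv⟩ = φ0 ⟨x a, hx a⟩ := by
    rw [← hφ0, ← hφ0, ← map_mul]
    congr 1
    apply Subtype.ext
    change x b * (x a / x b) = x a
    have := hx0 b
    field_simp
  have hb : v.D.D ⟨x b, hx b⟩ = φ0 ⟨x b, hx b⟩ * v.e b := v.hx b (hx b)
  have ha : v.D.D ⟨x a, hx a⟩ = φ0 ⟨x a, hx a⟩ * v.e a := v.hx a (hx a)
  obtain ⟨E, hE1, hE2⟩ := TV.ext_adj hy0 ht φ φ0 hφ0 v.D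
    (φ ⟨x a / x b, hv⟩ * (v.e a - v.e b)) (by
      change φ0 ⟨x b, hx b⟩ * (φ ⟨x a / x b, hv⟩ * (v.e a - v.e b)) +
        φ ⟨x a / x b, hv⟩ * v.D.D ⟨x b, hx b⟩ = v.D.D ⟨x a, hx a⟩
      rw [hb, ha, ← hrel]
      ring)
  have hE1' : ∀ c (hc : c ∈ A) (hc' : c ∈ adj A (x a / x b)), E.D ⟨c, hc'⟩ = v.D.D ⟨c, hc⟩ :=
    fun c hc hc' => hE1 ⟨c, hc⟩
  refine ⟨⟨E, fun o => o.elim (v.e b)
    fun l => if l = a then v.e a - v.e b else if l = b then 0 else v.e l, ?_⟩, ?_, rfl,
    fun l => rfl⟩
  · rintro (_ | l) ho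
    · exact (hE1' (x b) (hx b) ho).trans hb
    · by_cases h1 : l = a
      · have e1 : bx x a b (some l) = x a / x b := by
          simp only [bx, if_pos h1]
        have e2 : (⟨bx x a b (some l), ho⟩ : adj A (x a / x b)) = ⟨x a / x b, hv⟩ :=
          Subtype.ext e1
        rw [e2]
        simp only [Option.elim, if_pos h1]
        exact hE2
      · by_cases h2 : l = b
        · have e1 : bx x a b (some l) = 1 := by
            simp only [bx, if_neg h1, if_pos h2]
          have e2 : (⟨bx x a b (some l), ho⟩ : adj A (x a / x b)) = 1 := Subtype.ext e1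
          rw [e2]
          simp only [Option.elim, if_neg h1, if_pos h2]
          rw [E.D_one, mul_zero]
        · have e1 : bx x a b (some l) = x l := by
            simp only [bx, if_neg h1, if_neg h2]
          have e2 : (⟨bx x a b (some l), ho⟩ : adj A (x a / x b)) =
              ⟨x l, le_adj A (x a / x b) (hx l)⟩ := Subtype.ext e1
          rw [e2]
          simp only [Option.elim, if_neg h1, if_neg h2]
          exact (hE1' (x l) (hx l) _).trans (v.hx l (hx l))
  · intro c hc
    exact hE1' c hc _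

end lift

section ov

variable {k K : Type u} [Field k] [Field K] [Algebra k K] {R0 R : Subalgebra k K}
    {T T' I I' : Type}

/-- the identity -/
lemma ov_refl [Fintype I] [DecidableEq I] (M : LM R0 R T I) :
    Ov M M id (fun i' i => if i' = i then 1 else 0) where
  le := fun t => le_rfl
  x := by
    intro t i
    rw [Finset.prod_eq_single i]
    · rw [if_pos rfl, zpow_one]
      rfl
    · intro j _ hj
      rw [if_neg hj, zpow_zero]
    · intro h
      exact absurd (Finset.mem_univ _) h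
  lt := by
    intro t κ _ _ φ' v
    refine ⟨⟨v.D.cast (fun a => rfl), v.e, fun i h => v.hx i h⟩, fun a ha => rfl, ?_⟩
    intro i
    rw [Finset.sum_eq_single i]
    · rw [if_pos rfl]
      simp
    · intro j _ hj
      rw [if_neg hj]
      simp
    · intro h
      exact absurd (Finset.mem_univ _) h

/-- composition -/
lemma ov_trans [Fintype I] [Fintype I'] {T'' I'' : Type} [Fintype I''] {M : LM R0 R T I}
    {M' : LM R0 R T' I'} {M'' : LM R0 R T'' I''} {π : T' → T} {π' : T'' → T'}
    {Θ : I' → I → ℤ} {Θ' : I'' → I' → ℤ} (h : Ov M M' π Θ) (h' : Ov M' M'' π' Θ') :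
    Ov M M'' (fun t => π (π' t)) (fun i'' i => ∑ i', Θ' i'' i' * Θ i' i) where
  le := fun t => (h.le _).trans (h'.le t)
  x := by
    intro t i
    rw [h.x]
    have h1 : ∀ i', M'.x (π' t) i' ^ Θ i' i = ∏ i'', M''.x t i'' ^ (Θ' i'' i' * Θ i' i) := by
      intro i'
      rw [h'.x, ← Finset.prod_zpow]
      apply Finset.prod_congr rfl
      intro i'' _
      rw [← zpow_mul]
    rw [Finset.prod_congr rfl fun i' _ => h1 i', Finset.prod_comm]
    apply Finset.prod_congr rfl
    intro i'' _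
    rw [zpow_sum' (M''.x0 t i'')]
  lt := by
    intro t κ _ _ φ'' v
    obtain ⟨v', hv1, hv2⟩ := h.lt (π' t) κ (φ''.comp (Subalgebra.inclusion (h'.le t)))
      ⟨v.D.cast (fun a => rfl), v.e, fun i hi => v.hx i hi⟩
    obtain ⟨v'', hw1, hw2⟩ := h'.lt t κ φ'' v'
    refine ⟨v'', ?_, ?_⟩
    · intro a ha
      exact (hw1 a (h.le _ ha)).trans (hv1 a ha)
    · intro i
      have h3 : ∑ i', (Θ i' i : κ) * v'.e i' = v.e i := hv2 i
      rw [← h3]
      have h4 : ∀ i', (Θ i' i : κ) * v'.e i' = ∑ i'', ((Θ' i'' i' * Θ i' i : ℤ) : κ) * v''.e i'' := by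
        intro i'
        rw [← hw2 i', Finset.mul_sum]
        apply Finset.sum_congr rfl
        intro i'' _
        push_cast
        ring
      rw [Finset.sum_congr rfl fun i' _ => h4 i', Finset.sum_comm]
      apply Finset.sum_congr rfl
      intro i'' _
      push_cast
      rw [Finset.sum_mul]

/-- `Ov` together with the transformation of the exponents and the preservation of comparability -/
def OV [Fintype I] [Fintype I'] {G : Type} (M : LM R0 R T I) (Γ : G → I → ℤ)
    (M' : LM R0 R T' I') (Γ' : G → I' → ℤ) : Prop :=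
  (∃ (π : T' → T) (Θ : I' → I → ℤ), Ov M M' π Θ ∧ ∀ a i', Γ' a i' = ∑ i, Θ i' i * Γ a i) ∧
    ∀ a b, Cmp M Γ a b → Cmp M' Γ' a b

lemma OV.refl [Fintype I] {G : Type} (M : LM R0 R T I) (Γ : G → I → ℤ) : OV M Γ M Γ := by
  classical
  refine ⟨⟨id, _, ov_refl M, ?_⟩, fun _ _ h => h⟩
  intro a i'
  simp

lemma OV.trans [Fintype I] [Fintype I'] {G T'' I'' : Type} [Fintype I'']
    {M : LM R0 R T I} {Γ : G → I → ℤ} {M' : LM R0 R T' I'} {Γ' : G → I' → ℤ}
    {M'' : LM R0 R T'' I''} {Γ'' : G → I'' → ℤ}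
    (h : OV M Γ M' Γ') (h' : OV M' Γ' M'' Γ'') : OV M Γ M'' Γ'' := by
  obtain ⟨⟨π, Θ, h1, h2⟩, h3⟩ := h
  obtain ⟨⟨π', Θ', h1', h2'⟩, h3'⟩ := h'
  refine ⟨⟨_, _, ov_trans h1 h1', ?_⟩, fun a b x => h3' a b (h3 a b x)⟩
  intro a i''
  rw [h2']
  simp only [h2, Finset.mul_sum, Finset.sum_mul]
  rw [Finset.sum_comm]
  apply Finset.sum_congr rfl
  intro i _
  apply Finset.sum_congr rfl
  intro i' _
  ring

/-- the matrix of the blowup -/
def Θb [DecidableEq I] (i j : I) : Option I → I → ℤ
  | none, l => if l = i ∨ l = j then 1 else 0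
  | some m, l => if m = l then 1 else 0

lemma lift_blow [Fintype I] [DecidableEq I] (M : LM R0 R T I) {i j : I} (hij : i ≠ j)
    (p : T × Bool) (B : Subalgebra k K) (hB : B = bA M i j p) (y : Option I → K)
    (hy : y = bX M i j p) (le : M.A p.1 ≤ B) (κ : Type u) [Field κ] [Algebra k κ]
    (φ' : B →ₐ[k] κ) (v : LT (φ'.comp (Subalgebra.inclusion le)) (M.x p.1)) :
    ∃ v' : LT φ' y, (∀ a (ha : a ∈ M.A p.1), v'.D.D ⟨a, le ha⟩ = v.D.D ⟨a, ha⟩) ∧
      ∀ l, ∑ o, (Θb i j o l : κ) * v'.e o = v.e l := by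
  subst hB hy
  have := M.sm p.1
  obtain ⟨v', h1, h2, h3⟩ := lift_adj (M.snc p.1) (M.xA p.1) (M.x0 p.1) (nu_ne_de i j hij p.2) κ
    φ' v
  refine ⟨v', h1, ?_⟩
  intro l
  rw [Fintype.sum_option, h2]
  have h4 : ∑ m, (Θb i j (some m) l : κ) * v'.e (some m) = v'.e (some l) := by
    rw [Finset.sum_eq_single l]
    · simp [Θb]
    · intro m _ hm
      simp [Θb, hm]
    · intro h
      exact absurd (Finset.mem_univ _) h
  rw [h4, h3]
  have h5 : ((Θb i j none l : ℤ) : κ) = if l = nu i j p.2 ∨ l = de i j p.2 then 1 else 0 := by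
    have : (l = nu i j p.2 ∨ l = de i j p.2) ↔ (l = i ∨ l = j) := by
      rcases p with ⟨t, b⟩
      cases b <;> simp [nu, de, or_comm]
    simp only [this, Θb]
    split_ifs <;> simp
  rw [h5]
  have hne := nu_ne_de i j hij p.2
  by_cases h6 : l = nu i j p.2
  · rw [if_pos (Or.inl h6), if_pos h6, h6]
    ring
  · by_cases h7 : l = de i j p.2
    · rw [if_pos (Or.inr h7), if_neg h6, if_pos h7, h7]
      ring
    · rw [if_neg (by tauto), if_neg h6, if_neg h7]
      ring

lemma ov_blowup [Fintype I] [DecidableEq I] (M : LM R0 R T I) {i j : I} (hij : i ≠ j)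
    (M' : LM R0 R (T × Bool) (Option I)) (hA : M'.A = bA M i j) (hx : M'.x = bX M i j) :
    Ov M M' Prod.fst (Θb i j) where
  le := fun p => by rw [hA]; exact le_bA M i j p
  x := by
    intro p l
    rw [hx, Fintype.prod_option, x_eq_bX M hij p l]
    have h1 : ∏ m, bX M i j p (some m) ^ Θb i j (some m) l = bX M i j p (some l) := by
      rw [Finset.prod_eq_single l]
      · simp [Θb]
      · intro m _ hm
        simp [Θb, hm]
      · intro h
        exact absurd (Finset.mem_univ _) h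
    rw [h1, mul_comm]
    congr 1
    simp only [Θb]
    split_ifs <;> simp
  lt := by
    intro p κ _ _ φ' v
    exact lift_blow M hij p (M'.A p) (congrFun hA p) (M'.x p) (congrFun hx p) _ κ φ' v

lemma sum_Θb [Fintype I] [DecidableEq I] {i j : I} (hij : i ≠ j) (γ : I → ℤ) (o : Option I) :
    bΓ i j γ o = ∑ l, Θb i j o l * γ l := by
  cases o with
  | none =>
    have h1 : ∀ l, Θb i j none l * γ l = (if l = i then γ i else 0) + (if l = j then γ j else 0) := by
      intro l
      simp only [Θb]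
      by_cases h1 : l = i
      · subst h1
        rw [if_pos (Or.inl rfl), if_pos rfl, if_neg hij]
        ring
      · by_cases h2 : l = j
        · subst h2
          rw [if_pos (Or.inr rfl), if_neg h1, if_pos rfl]
          ring
        · rw [if_neg (by tauto), if_neg h1, if_neg h2]
          ring
    rw [Finset.sum_congr rfl fun l _ => h1 l, Finset.sum_add_distrib, Finset.sum_ite_eq',
      Finset.sum_ite_eq', if_pos (Finset.mem_univ _), if_pos (Finset.mem_univ _)]
    rfl
  | some m =>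
    rw [Finset.sum_eq_single m]
    · simp [Θb, bΓ]
    · intro l _ hl
      simp only [Θb]
      rw [if_neg (Ne.symm hl), zero_mul]
    · intro h
      exact absurd (Finset.mem_univ _) h

lemma lift_ref [Fintype I] [DecidableEq I] (M : LM R0 R T I) {J : Type} (h : T → J → K)
    (hmem : ∀ t b, h t b ∈ M.A t) (hne : ∀ t b, h t b ≠ 0)
    (p : T × J) (B : Subalgebra k K) (hB : B = rA M h p) (y : I → K)
    (hy : y = M.x p.1) (le : M.A p.1 ≤ B) (κ : Type u) [Field κ] [Algebra k κ]
    (φ' : B →ₐ[k] κ) (v : LT (φ'.comp (Subalgebra.inclusion le)) (M.x p.1)) :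
    ∃ v' : LT φ' y, (∀ a (ha : a ∈ M.A p.1), v'.D.D ⟨a, le ha⟩ = v.D.D ⟨a, ha⟩) ∧
      v'.e = v.e := by
  subst hB hy
  obtain ⟨E, hE⟩ := TV.ext_loc (hmem p.1 p.2) (hne p.1 p.2) φ'
    (φ'.comp (Subalgebra.inclusion le)) (fun a => rfl) v.D
  refine ⟨⟨E, v.e, ?_⟩, fun a ha => hE a ha _, rfl⟩
  intro i hi
  exact (hE _ (M.xA p.1 i) hi).trans (v.hx i (M.xA p.1 i))

lemma ov_refine [Fintype I] [DecidableEq I] (M : LM R0 R T I) {J : Type} (h : T → J → K)
    (hmem : ∀ t b, h t b ∈ M.A t) (hne : ∀ t b, h t b ≠ 0) (M' : LM R0 R (T × J) I)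
    (hA : M'.A = rA M h) (hx : M'.x = fun p => M.x p.1) :
    Ov M M' Prod.fst (fun i' i => if i' = i then 1 else 0) where
  le := fun p => by rw [hA]; exact le_rA M h p
  x := by
    intro p i
    rw [hx, Finset.prod_eq_single i]
    · rw [if_pos rfl, zpow_one]
    · intro j _ hj
      rw [if_neg hj, zpow_zero]
    · intro h
      exact absurd (Finset.mem_univ _) h
  lt := by
    intro p κ _ _ φ' v
    obtain ⟨v', h1, h2⟩ := lift_ref M h hmem hne p (M'.A p) (congrFun hA p) (M'.x p)
      (congrFun hx p) _ κ φ' v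
    refine ⟨v', h1, ?_⟩
    intro i
    rw [Finset.sum_eq_single i]
    · rw [if_pos rfl, h2]
      simp
    · intro j _ hj
      rw [if_neg hj]
      simp
    · intro h
      exact absurd (Finset.mem_univ _) h

end ov

section wt

variable {k K : Type u} [Field k] [Field K] [Algebra k K] {R0 R : Subalgebra k K}
    {T I : Type} {G : Type}

/-- If there are no bad pairs then the functions become comparable after a refinement. -/
lemma cmp_of_no_bad3 [Finite T] [Fintype I] [DecidableEq I] (a b : G)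
    (M : LM R0 R T I) (Γ : G → I → ℤ) (h : ∀ p, ¬ Bad M (dc Γ a b) p) :
    ∃ (T' I' : Type) (_ : Finite T') (_ : Fintype I') (_ : DecidableEq I')
      (M' : LM R0 R T' I') (Γ' : G → I' → ℤ), OV M Γ M' Γ' ∧ Cmp M' Γ' a b := by
  classical
  let s : Bool → Finset I := fun e =>
    if e then Finset.univ.filter (fun l => dc Γ a b l < 0) else
      Finset.univ.filter (fun l => 0 < dc Γ a b l)
  let h' : T → Bool → K := fun t e => ∏ l ∈ s e, M.x t l
  have hmem : ∀ t e, h' t e ∈ M.A t := fun t e => (M.A t).prod_mem fun l _ => M.xA t l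
  have hne : ∀ t e, h' t e ≠ 0 := fun t e => Finset.prod_ne_zero_iff.2 fun l _ => M.x0 t l
  have hcop : ∀ t, ∃ α ∈ M.A t, ∃ β ∈ M.A t, α * h' t true + β * h' t false = 1 := by
    intro t
    have key : IsCoprime (∏ l ∈ s true, (⟨M.x t l, M.xA t l⟩ : M.A t))
        (∏ l ∈ s false, (⟨M.x t l, M.xA t l⟩ : M.A t)) := by
      refine IsCoprime.prod_left fun l hl => IsCoprime.prod_right fun m hm => ?_
      have hl' : dc Γ a b l < 0 := by simpa [s] using hl
      have hm' : 0 < dc Γ a b m := by simpa [s] using hm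
      have h1 : Sep M m l := by
        by_contra h2
        exact h (m, l) ⟨wt_pos.2 ⟨hm', hl'⟩, h2⟩
      obtain ⟨α, hα, β, hβ, h3⟩ := h1.symm t
      exact ⟨⟨α, hα⟩, ⟨β, hβ⟩, Subtype.ext h3⟩
    obtain ⟨α, β, hαβ⟩ := key
    refine ⟨α, α.2, β, β.2, ?_⟩
    have := congrArg (Subtype.val : M.A t → K) hαβ
    simpa [h'] using this
  obtain ⟨M', hA, hx, hH⟩ := exists_refine M h' hmem hne (by
    intro t V hV
    obtain ⟨α, hα, β, hβ, h1⟩ := hcop t
    have hV1 : h' t true ∈ V := hV _ (hmem _ _)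
    have hV2 : h' t false ∈ V := hV _ (hmem _ _)
    by_contra hcon
    push Not at hcon
    have h2 : ∀ e, V.valuation (h' t e) < 1 := by
      intro e
      have h3 : (h' t e)⁻¹ ∉ V := hcon e
      rw [← V.valuation_le_one_iff, map_inv₀, not_le] at h3
      have h4 : V.valuation (h' t e) ≠ 0 := by
        rw [ne_eq, map_eq_zero]; exact hne t e
      exact (one_lt_inv₀ (zero_lt_iff.2 h4)).1 h3
    have h5 : V.valuation (α * h' t true + β * h' t false) < 1 := by
      refine Valuation.map_add_lt _ ?_ ?_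
      · rw [map_mul]
        exact (mul_le_of_le_one_left' ((V.valuation_le_one_iff _).2 (hV _ hα))).trans_lt (h2 _)
      · rw [map_mul]
        exact (mul_le_of_le_one_left' ((V.valuation_le_one_iff _).2 (hV _ hβ))).trans_lt (h2 _)
    rw [h1, map_one] at h5
    exact lt_irrefl _ h5)
  refine ⟨T × Bool, I, inferInstance, inferInstance, inferInstance, M', Γ, ⟨?_, ?_⟩, ?_⟩
  · refine ⟨Prod.fst, _, ov_refine M h' hmem hne M' hA hx, ?_⟩
    intro a i'
    simp
  · intro a b hh p
    rw [hA, hx]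
    rcases hh p.1 with h1 | h1
    · left
      intro i
      exact (h1 i).imp_right fun h2 => le_rA M h' p h2
    · right
      intro i
      exact (h1 i).imp_right fun h2 => le_rA M h' p h2
  · rintro ⟨t, e⟩
    rw [hA, hx]
    have hu : ∀ l ∈ s e, (M.x t l)⁻¹ ∈ rA M h' (t, e) := by
      intro l hl
      have h1 : (M.x t l)⁻¹ = (∏ m ∈ (s e).erase l, M.x t m) * (h' t e)⁻¹ := by
        have h2 : h' t e = M.x t l * ∏ m ∈ (s e).erase l, M.x t m :=
          (Finset.mul_prod_erase _ _ hl).symm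
        rw [h2]
        have h3 := M.x0 t l
        have h4 : ∏ m ∈ (s e).erase l, M.x t m ≠ 0 :=
          Finset.prod_ne_zero_iff.2 fun l _ => M.x0 t l
        field_simp
      rw [h1]
      exact (rA M h' (t, e)).mul_mem
        (le_rA M h' (t, e) ((M.A t).prod_mem fun m _ => M.xA t m)) (inv_mem_rA M h' (t, e))
    cases e
    · -- the divisors with positive exponent are units
      left
      intro l
      by_cases hl : 0 < dc Γ a b l
      · right
        exact hu l (by simpa [s] using hl)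
      · left
        simp only [dc] at hl
        omega
    · right
      intro l
      by_cases hl : dc Γ a b l < 0
      · right
        exact hu l (by simpa [s] using hl)
      · left
        simp only [dc] at hl
        omega

theorem princ_aux3 (a b : G) : ∀ (W n : ℕ) {T I : Type} [Finite T] [Fintype I]
    [DecidableEq I] (M : LM R0 R T I) (Γ : G → I → ℤ),
    (∀ p, Bad M (dc Γ a b) p → wt (dc Γ a b) p ≤ W) →
    {p | Bad M (dc Γ a b) p ∧ wt (dc Γ a b) p = W}.ncard ≤ n →
    ∃ (T' I' : Type) (_ : Finite T') (_ : Fintype I') (_ : DecidableEq I')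
      (M' : LM R0 R T' I') (Γ' : G → I' → ℤ), OV M Γ M' Γ' ∧ Cmp M' Γ' a b := by
  intro W
  induction W with
  | zero =>
    intro n T I _ _ _ M Γ hW hn
    refine cmp_of_no_bad3 a b M Γ ?_
    intro p hp
    have := hW p hp
    have := hp.1
    omega
  | succ W ihW =>
    intro n
    induction n with
    | zero =>
      intro T I _ _ _ M Γ hW hn
      refine ihW _ M Γ ?_ le_rfl
      intro p hp
      have h1 := hW p hp
      rcases h1.lt_or_eq with h2 | h2
      · omega
      · exfalso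
        have h3 : {p | Bad M (dc Γ a b) p ∧ wt (dc Γ a b) p = W + 1} = ∅ := by
          rw [← Set.ncard_eq_zero (Set.toFinite _)]
          omega
        have h4 : p ∈ {p | Bad M (dc Γ a b) p ∧ wt (dc Γ a b) p = W + 1} := ⟨hp, h2⟩
        rw [h3] at h4
        exact h4
    | succ n ihn =>
      intro T I _ _ _ M Γ hW hn
      by_cases hex : ∃ p, Bad M (dc Γ a b) p ∧ wt (dc Γ a b) p = W + 1
      · obtain ⟨⟨i, j⟩, hb, hwt⟩ := hex
        have hij : i ≠ j := by
          rintro rfl
          obtain ⟨h1, h2⟩ := wt_pos.1 hb.1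
          simp only at h1 h2
          omega
        obtain ⟨M', hA, hx, hH⟩ := exists_blowup M hij
        obtain ⟨hd1, hd2⟩ := dc_blowup i j Γ a b
        have key := bad_blowup M hij M' hA hx _ _ hd1 hd2 (W + 1) hW hb
        obtain ⟨T'', I'', i1, i2, i3, M'', Γ'', hE, hC⟩ := ihn M' (fun a => bΓ i j (Γ a)) (by
          intro q hq
          rcases key q hq with h1 | ⟨l, l', h1, h2, h3, h4⟩
          · exact h1.le
          · rw [← h3]
            exact hW _ h2) (by
          have h5 : {q | Bad M' (dc (fun a => bΓ i j (Γ a)) a b) q ∧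
              wt (dc (fun a => bΓ i j (Γ a)) a b) q = W + 1} ⊆
              (fun q : I × I => (some q.1, some q.2)) ''
                ({p | Bad M (dc Γ a b) p ∧ wt (dc Γ a b) p = W + 1} \ {(i, j)}) := by
            rintro q ⟨hq, hq'⟩
            rcases key q hq with h1 | ⟨l, l', h1, h2, h3, h4⟩
            · omega
            · exact ⟨(l, l'), ⟨⟨h2, by rw [h3, hq']⟩, h4⟩, h1.symm⟩
          have h6 := Set.ncard_le_ncard h5 (Set.toFinite _)
          have h7 := Set.ncard_image_le (f := fun q : I × I => (some q.1, some q.2))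
            (s := {p | Bad M (dc Γ a b) p ∧ wt (dc Γ a b) p = W + 1} \ {(i, j)}) (Set.toFinite _)
          have h8 := Set.ncard_sdiff_singleton_lt_of_mem
            (s := {p | Bad M (dc Γ a b) p ∧ wt (dc Γ a b) p = W + 1}) (a := (i, j)) ⟨hb, hwt⟩
            (Set.toFinite _)
          omega)
        exact ⟨T'', I'', i1, i2, i3, M'', Γ'', OV.trans ⟨⟨Prod.fst, _, ov_blowup M hij M' hA hx,
          fun a o => sum_Θb hij (Γ a) o⟩, (ext_blowup M hij (fun _ : G => (1 : K)) Γ M' hA hx
            hH).cmp⟩ hE, hC⟩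
      · refine ihW _ M Γ ?_ le_rfl
        intro p hp
        have h1 := hW p hp
        rcases h1.lt_or_eq with h2 | h2
        · omega
        · exact absurd ⟨p, hp, h2⟩ hex

theorem princ_pair3 (a b : G) [Finite T] [Fintype I] [DecidableEq I]
    (M : LM R0 R T I) (Γ : G → I → ℤ) :
    ∃ (T' I' : Type) (_ : Finite T') (_ : Fintype I') (_ : DecidableEq I')
      (M' : LM R0 R T' I') (Γ' : G → I' → ℤ), OV M Γ M' Γ' ∧ Cmp M' Γ' a b := by
  refine princ_aux3 a b (Finset.univ.sup (wt (dc Γ a b))) _ M Γ ?_ le_rfl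
  intro p _
  exact Finset.le_sup (Finset.mem_univ p)

/-- Principalization. -/
theorem princ_all3 [Finite G] [Finite T] [Fintype I] [DecidableEq I]
    (M : LM R0 R T I) (Γ : G → I → ℤ) :
    ∃ (T' I' : Type) (_ : Finite T') (_ : Fintype I') (_ : DecidableEq I')
      (M' : LM R0 R T' I') (Γ' : G → I' → ℤ), OV M Γ M' Γ' ∧ ∀ a b, Cmp M' Γ' a b := by
  classical
  have : Fintype G := Fintype.ofFinite G
  have key : ∀ s : Finset (G × G), ∃ (T' I' : Type) (_ : Finite T') (_ : Fintype I')
      (_ : DecidableEq I') (M' : LM R0 R T' I') (Γ' : G → I' → ℤ), OV M Γ M' Γ' ∧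
        ∀ p ∈ s, Cmp M' Γ' p.1 p.2 := by
    intro s
    induction s using Finset.induction_on with
    | empty =>
      exact ⟨T, I, inferInstance, inferInstance, inferInstance, M, Γ, OV.refl M Γ, by simp⟩
    | insert q s hq ih =>
      obtain ⟨T1, I1, i1, i2, i3, M1, Γ1, hE1, hC1⟩ := ih
      obtain ⟨T2, I2, j1, j2, j3, M2, Γ2, hE2, hC2⟩ := princ_pair3 q.1 q.2 M1 Γ1
      refine ⟨T2, I2, j1, j2, j3, M2, Γ2, hE1.trans hE2, ?_⟩
      intro p hp
      rcases Finset.mem_insert.1 hp with rfl | hp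
      · exact hC2
      · exact hE2.2 _ _ (hC1 p hp)
  obtain ⟨T', I', i1, i2, i3, M', Γ', hE, hC⟩ := key Finset.univ
  exact ⟨T', I', i1, i2, i3, M', Γ', hE, fun a b => hC (a, b) (Finset.mem_univ _)⟩

end wt

theorem main : WD_ovp.{u} := by
  intro k K _ _ _ R0 R T I G _ _ _ M Γ
  classical
  obtain ⟨T', I', i1, i2, i3, M', Γ', ⟨⟨π, Θ, h1, h2⟩, h3⟩, h4⟩ := princ_all3 M Γ
  refine ⟨T', I', i1, i2, M', π, Θ, h1, ?_⟩
  have h5 : (fun a i' => ∑ i, Θ i' i * Γ a i) = Γ' := by
    funext a i'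
    exact (h2 a i').symm
  intro a b
  rw [h5]
  exact h4 a b

end Pool.Agent.W349.WD
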